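import Pool.Agent.Y560.TF.GeS

/-!
Project TF: elements of a class with the same label compare in the same way with the elements
outside.
-/

set_option autoImplicit false
set_option linter.unusedSectionVars false

namespace Pool.Agent.Y362.TF

open Pool.Agent.Y560.TF.Ge

variable {Γ X : Type} [Group Γ] [PartialOrder X] [MulAction Γ X] [Tr Γ X]

/-- Below. -/
theorem one_A (h2 : S_TYP) (h3 : S_CUT) (h4 : S_CC) {u x x' w : X} (hx' : x' ∈ OB Γ u x)
    (hl : SL Γ u x x') (hw : w ∉ OB Γ u x) (hlt : w < x) : w < x' := by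
  by_contra hcon
  have hwx' : ¬ w ≤ x' := fun h => hcon (lt_of_le_of_ne h (fun e => hw (e ▸ hx')))
  have hwD : DD Γ u w := by
    by_contra hD
    apply hw
    rw [mem_OB]
    exact Or.inr (Or.inl ⟨1, w, by rw [one_smul]; exact hlt.le, le_rfl, hD⟩)
  obtain ⟨s, hs, hsx⟩ := h4 Γ X u x x' w hx' hl hwD hlt.le hwx'
  have hE := (h2 Γ X u x).1 s hs hsx
  have hsx' : IN Γ u s x' := by
    have : x' ∈ {t | IN Γ u s t} := hE ▸ hx'
    exact this
  have hsw : ¬ IN Γ u s w := by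
    intro h
    apply hw
    rw [hE]
    exact h
  obtain ⟨hc1, hc2⟩ := h3 Γ X u x x' hl.toRL
  have hsub : ∀ r, r ≤ x' → DD Γ u r → r ≤ x := by
    rcases hc1 with h | h
    · exact absurd (h w hlt.le hwD) hwx'
    · exact h
  have hlab : ∀ z', z' ≤ x → DD Γ u z' → ¬ z' ≤ x' → SL Γ u w z' := (hc2 w hlt.le hwD hwx').2
  obtain ⟨a, b, hpq, hp, hq⟩ := hsx'
  have hpx : a • s ≤ x := hsub _ hp (hs.smul a)
  have hpw : a • s ≤ w := by
    rcases cmp Γ hpx hlt.le with h | h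
    · exact h
    · exact absurd (h.trans hp) hwx'
  have hqw : b • s ≤ w := by
    by_contra h
    exact hsw ⟨a, b, hpq, hpw, h⟩
  have hqlab := hlab (b • s) (hqw.trans hlt.le) (hs.smul b) hq
  -- `p ~ w`
  have hplab : SL Γ u (a • s) w := hpq.trans hqlab.symm
  obtain ⟨a1, b1, hpq1, hp1, hq1⟩ := hsx
  have hq1w : ¬ b1 • s ≤ w := fun h => hq1 (h.trans hlt.le)
  have hp1w : ¬ a1 • s ≤ w := fun h => hsw ⟨a1, b1, hpq1, h, hq1w⟩
  have hwp1 : w ≤ a1 • s := by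
    rcases cmp Γ hp1 hlt.le with h | h
    · exact absurd h hp1w
    · exact h
  have hp1x' : ¬ a1 • s ≤ x' := fun h => hwx' (hwp1.trans h)
  have hp1lab := hlab (a1 • s) hp1 (hs.smul a1) hp1x'
  exact hsw ⟨a, a1, hplab.trans hp1lab, hpw, hp1w⟩

/-- Above. -/
theorem one_B (h2 : S_TYP) {u x x' w : X} (hx' : x' ∈ OB Γ u x)
    (hl : SL Γ u x x') (hw : w ∉ OB Γ u x) (hlt : x < w) : x' < w := by
  by_contra hcon
  have hxw' : ¬ x' ≤ w := fun h => hcon (lt_of_le_of_ne h (fun e => hw (e ▸ hx')))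
  have hxD : DD Γ u x := by
    by_contra hD
    apply hw
    rw [mem_OB]
    exact Or.inr (Or.inl ⟨1, x, by rw [one_smul], hlt.le, hD⟩)
  have hxD' : DD Γ u x' := hl.dd.1 hxD
  have hxx' : x ≤ x' := by
    obtain ⟨γ, hγ⟩ := hxD
    rcases cmp Γ hγ ((hl.b γ).1 hγ) with h | h
    · exact h
    · exact absurd (h.trans hlt.le) hxw'
  have hne : x ≠ x' := fun e => hxw' (e ▸ hlt.le)
  have hex : ∃ s, DD Γ u s ∧ IN Γ u s x := by
    by_contra hno
    have hE := (h2 Γ X u x).2.1 hxD hno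
    have hx2 : x' ∈ {t | ∃ γ : Γ, γ • x = t} := hE ▸ hx'
    obtain ⟨γ, hγ⟩ := hx2
    apply hno
    refine ⟨x, hxD, (h2 Γ X u x).2.2.2.2.2 1 γ x hxD ?_ ?_⟩
    · rw [one_smul, hγ]
      exact hl
    · rw [one_smul, hγ]
      exact hne
  obtain ⟨s, hs, hsx⟩ := hex
  have hE := (h2 Γ X u x).1 s hs hsx
  have hsx' : IN Γ u s x' := by
    have : x' ∈ {t | IN Γ u s t} := hE ▸ hx'
    exact this
  have hsw : ¬ IN Γ u s w := by
    intro h
    apply hw
    rw [hE]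
    exact h
  obtain ⟨a, b, hpq, hp, hq⟩ := hsx
  have hpw : a • s ≤ w := hp.trans hlt.le
  have hqw : b • s ≤ w := by
    by_contra h
    exact hsw ⟨a, b, hpq, hpw, h⟩
  have hxq : x ≤ b • s := by
    rcases cmp Γ hlt.le hqw with h | h
    · exact h
    · exact absurd h hq
  have hqx' : b • s ≤ x' := by
    rcases hpq.cmp hxD' (hp.trans hxx') with h | h
    · exact h
    · exact absurd (h.trans hqw) hxw'
  have hxqlab : SL Γ u x (b • s) := hl.mid hxq hqx'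
  have hpx : SL Γ u (a • s) x := hpq.trans hxqlab.symm
  obtain ⟨a1, b1, hpq1, hp1, hq1⟩ := hsx'
  have hq1' : x' < b1 • s := hpq1.cmp_lt hxD' hp1 hq1
  have hxp1 : SL Γ u x (a1 • s) := by
    rcases cmp Γ hxx' hp1 with h | h
    · exact hl.mid h hp1
    · exact (hpq1.mid h (hxx'.trans hq1'.le)).symm
  exact hsw ⟨a, b1, (hpx.trans hxp1).trans hpq1, hpw, fun h => hxw' (hq1'.le.trans h)⟩

theorem t_M1 (h1 : S_EQV) (h2 : S_TYP) (h3 : S_CUT) (h4 : S_CC) : S_M1 := by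
  intro Γ X _ _ _ _ u v x x' w hx hx' hl hw
  obtain ⟨_, h12, _⟩ := h1 Γ X
  have e1 : OB Γ u x = OB Γ u v := h12 u v x hx
  have e2 : OB Γ u x' = OB Γ u v := h12 u v x' hx'
  have hxx' : x' ∈ OB Γ u x := by rw [e1]; exact hx'
  have hx'x : x ∈ OB Γ u x' := by rw [e2]; exact hx
  have hw1 : w ∉ OB Γ u x := by rw [e1]; exact hw
  have hw2 : w ∉ OB Γ u x' := by rw [e2]; exact hw
  exact ⟨⟨one_B h2 hxx' hl hw1, one_B h2 hx'x hl.symm hw2⟩,
    ⟨one_A h2 h3 h4 hxx' hl hw1, one_A h2 h3 h4 hx'x hl.symm hw2⟩⟩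

end Pool.Agent.Y362.TF
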